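import Mathlib

/-!
# Project NC: finite-dimensional algebras and finite rings
-/

set_option autoImplicit false

namespace Pool.Agent.L7h59.NC

/-- `S` is a (left) Artinian ring and a finitely generated module over its centre. -/
def ArtinFinite (S : Type) [Ring S] : Prop :=
  IsArtinianRing S ∧ Module.Finite (Subring.center S) S

theorem artinFinite_fd (k S : Type) [Field k] [Ring S] [Algebra k S] [Module.Finite k S] :
    ArtinFinite S := by
  refine ⟨IsArtinianRing.of_finite k S, ?_⟩
  obtain ⟨T, hT⟩ := Module.Finite.fg_top (R := k) (M := S)
  refine ⟨⟨T, ?_⟩⟩
  rw [eq_top_iff]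
  intro x _
  have hx : x ∈ Submodule.span k (T : Set S) := by rw [hT]; exact Submodule.mem_top
  induction hx using Submodule.span_induction with
  | mem x h => exact Submodule.subset_span h
  | zero => exact Submodule.zero_mem _
  | add x y _ _ h1 h2 => exact Submodule.add_mem _ (h1 trivial) (h2 trivial)
  | smul a x _ h =>
    have hc : algebraMap k S a ∈ Subring.center S := by
      rw [Subring.mem_center_iff]
      intro g
      exact (Algebra.commutes a g).symm
    have e : a • x = (⟨algebraMap k S a, hc⟩ : Subring.center S) • x := by
      rw [Algebra.smul_def]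
      rfl
    rw [e]
    exact Submodule.smul_mem _ _ (h trivial)

theorem artinFinite_finite (S : Type) [Ring S] [Finite S] : ArtinFinite S :=
  ⟨inferInstance, Module.Finite.of_finite⟩

theorem subring_fd (k R : Type) [Field k] [Ring R] [Algebra k R] (S : Subalgebra k R)
    (h : FiniteDimensional k S) : ArtinFinite S.toSubring := by
  let _ : Algebra k S.toSubring := inferInstanceAs (Algebra k S)
  have : Module.Finite k S.toSubring := h
  exact artinFinite_fd k S.toSubring

end Pool.Agent.L7h59.NC
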