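import Pool.Agent.L7h59.NC.Def

/-!
# Project NC: further parts (Azumaya algebras over commutative rings)
-/

set_option autoImplicit false

open Matrix

namespace Pool.Agent.L7h59.NC

open Pool.Agent.L7h59.TW (RFun Blow Cont k0 k1)

noncomputable section

/-- [AZU] `R` an Azumaya algebra over the commutative ring `C`, free as a `C`-module: the regular
representation `θ : R → End_C(R) = M_X(C)` is conjugate over `R` to the diagonal embedding.
Proof: `e_j` a basis, `w = (e_j e_i)_ij` as in CSA, `r w = w θ(r)`. Left inverse: by the bijectivity of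
`R ⊗ R^op → End_C(R)` the map `x ↦ (coordinate l of x) • 1` is of the form `x ↦ ∑ i, v_li x e_i` (expand the
right factors in the basis), so `v w = 1`. `M_X(R)` is a finite `C`-module, so `w v = 1` as well
(surjective endomorphisms of finite modules over commutative rings are injective). -/
def S_AZU : Prop := ∀ (C R : Type) [CommRing C] [Nontrivial C] [Ring R] [Algebra C R]
  [Module.Free C R] [IsAzumaya C R],
  ∃ (X : Type) (_ : Fintype X) (_ : DecidableEq X) (_ : Nonempty X)
    (θ : R →+* Matrix X X C) (u v : Matrix X X R),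
    u * v = 1 ∧ v * u = 1 ∧
      ∀ r : R, (θ r).map (algebraMap C R) = u * Matrix.scalar X r * v

/-- [COM0] Commutative semilocal rings, `K₀`: from `SemilocalK0.result` (as FLD0). -/
def S_COM0 : Prop := ∀ (C G : Type) [CommRing C] [Group G], Finite (MaximalSpectrum C) →
  RatInj k0 C G

/-- [COM1] Commutative rings, `K₁`: semilocal, or every finite subset lies in a finitely generated
subring of Krull dimension at most one: from `fin_tor`, `sk1_semilocal`, `sk1_union` of
`Pool.Agent.L7h58.SK.Main` (see `Pool.Agent.Results.MP_6374fb_al.CommutativeK1`; do not import that Results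
file, only `Pool.Agent.L7h58.SK.Main`), as FLD1. -/
def S_COM1 : Prop := ∀ (C G : Type) [CommRing C] [Group G],
  (Finite (MaximalSpectrum C) ∨
    ∀ s : Finset C, ∃ t : Finset C, s ⊆ t ∧ Ring.KrullDimLE 1 (Algebra.adjoin ℤ (t : Set C))) →
  RatInj k1 C G

/-- [SURF] as SUR, but the hypotheses only for finite groups `H`. -/
def S_SURF : Prop := ∀ (K : RFun) (R R' : Type) [Ring R] [Ring R'] (t : NT K R R'),
  (∀ (H : Type) [Group H] [Finite H] (y : K.F (MonoidAlgebra R' H)), ∃ x, t.f H x = y) →
  (∀ (H : Type) [Group H] [Finite H] (x : K.F (MonoidAlgebra R H)), t.f H x = 0 →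
    ∃ m : ℕ, 0 < m ∧ m • x = 0) →
  ∀ (G : Type) [Group G], RatInj K R' G → RatInj K R G

end

end Pool.Agent.L7h59.NC
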