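import Pool.Agent.L7h59.NC.Base
import Pool.Agent.L7h75.TW.K0f
import Pool.Agent.L7h76.TW.K1f
import Pool.Agent.L7h59.NC.Stm2
import Pool.Agent.L7h59.NC.Alg
import Pool.Agent.L7h44.NC.Dom
import Pool.Agent.L7h64.NC.Csa
import Pool.Agent.L7h47.NC.Wed
import Pool.Agent.L7h53.NC.Uni
import Pool.Agent.L7h46.NC.Prd1
import Pool.Agent.L7h29.NC.Prd0
import Pool.Agent.L7h22.NC.Nil0
import Pool.Agent.L7h70.NC.Surf
import Pool.Agent.L7h75.NC.Fld0
import Pool.Agent.L7h15.NC.Fld1

/-!
# Project NC: assembly of the parts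
-/

set_option autoImplicit false

open Matrix

namespace Pool.Agent.L7h59.NC

open Pool.Agent.L7h59.TW (RFun Blow Cont k0 k1)
open Pool.Agent.Y69.FJ (FinSub)

noncomputable section

/-- the natural transformation of a ring homomorphism -/
def NT.ofMap {K : RFun} (B : Blow K) {R R' : Type} [Ring R] [Ring R'] (f : R →+* R') : NT K R R' where
  f H _ := K.map (MonoidAlgebra.mapRingHom H f)
  nat H L _ _ φ x := by
    have e : (MonoidAlgebra.mapRingHom L f).comp (MonoidAlgebra.mapDomainRingHom R φ) =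
        (MonoidAlgebra.mapDomainRingHom R' φ).comp (MonoidAlgebra.mapRingHom H f) := by
      apply MonoidAlgebra.ringHom_ext
      · intro r
        simp
      · intro h
        simp
    rw [B.map_map, B.map_map, e]

section closure

variable {K : RFun} (B : Blow K) (hid : ∀ (S : Type) [Ring S] (x : K.F S), K.map (RingHom.id S) x = x)

include B hid in
/-- matrix domination -/
theorem dominated {R R' X : Type} [Ring R] [Ring R'] [Fintype X] [DecidableEq X] [Nonempty X]
    (θ : R →+* Matrix X X R') (g : R' →+* R) (u v : Matrix X X R) (h1 : u * v = 1) (h2 : v * u = 1)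
    (h3 : ∀ r : R, (θ r).map g = u * Matrix.scalar X r * v) (G : Type) [Group G]
    (h : RatInj K R' G) : RatInj K R G := by
  obtain ⟨t, s, hst⟩ := Pool.Agent.L7h44.NC.dom K ⟨B⟩ (fun S _ x => hid S x) R R' X θ g u v h1 h2 h3
  exact s_RET K R Unit (fun _ => R') (fun _ => t) (fun _ => s) (Fintype.card X)
    Fintype.card_pos (fun H _ x => by rw [Fintype.sum_unique]; exact hst H x) G fun _ => h

include B hid in
/-- simple rings which are finite over the centre -/
theorem simple (hF : ∀ (k G : Type) [Field k] [Group G], RatInj K k G) (R : Type) [Ring R]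
    [IsSimpleRing R] [Module.Finite (Subring.center R) R] (G : Type) [Group G] :
    RatInj K R G := by
  obtain ⟨X, _, _, _, θ, u, v, h1, h2, h3⟩ := Pool.Agent.L7h64.NC.s_CSA R
  have hc : IsField (Subring.center R) := IsSimpleRing.isField_center R
  have hZ : RatInj K (Subring.center R) G := by
    let _ := hc.toField
    exact hF (Subring.center R) G
  exact dominated B hid θ (Subring.center R).subtype u v h1 h2 h3 G hZ

include B in
/-- products -/
theorem prod (hP : S_PRD K) (R ι : Type) [Ring R] [Fintype ι] [DecidableEq ι]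
    (R' : ι → Type) [∀ i, Ring (R' i)] (π : ∀ i, R →+* R' i)
    (hπ : Function.Bijective (fun (r : R) (i : ι) => π i r)) (G : Type) [Group G]
    (h : ∀ i, RatInj K (R' i) G) : RatInj K R G := by
  obtain ⟨s, hs⟩ := hP R ι R' π hπ
  exact s_RET K R ι R' (fun i => NT.ofMap B (π i)) s 1 one_pos
    (fun H _ x => by rw [one_smul]; exact hs H x) G h

include B in
/-- isomorphisms on finite groups up to torsion -/
theorem surf {R R' : Type} [Ring R] [Ring R'] (f : R →+* R')
    (h1 : ∀ (H : Type) [Group H] [Finite H] (y : K.F (MonoidAlgebra R' H)),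
      ∃ x, K.map (MonoidAlgebra.mapRingHom H f) x = y)
    (h2 : ∀ (H : Type) [Group H] [Finite H] (x : K.F (MonoidAlgebra R H)),
      K.map (MonoidAlgebra.mapRingHom H f) x = 0 → ∃ m : ℕ, 0 < m ∧ m • x = 0)
    (G : Type) [Group G] (h : RatInj K R' G) : RatInj K R G :=
  Pool.Agent.L7h70.NC.s_SURF K R R' (NT.ofMap B f) (fun H _ _ y => h1 H y)
    (fun H _ _ x hx => h2 H x hx) G h

end closure

/-- `K₀` of Artinian rings finite over the centre -/
theorem artin0 (B : Blow k0) (hGRN : S_GRN) (S : Type) [Ring S] (hS : ArtinFinite S) (G : Type)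
    [Group G] : RatInj k0 S G := by
  have := hS.1
  have := hS.2
  obtain ⟨B', _, q, ι, _, _, R', _, π, h1, h2, -, h4, h5⟩ := Pool.Agent.L7h47.NC.s_WED S
  have hB : RatInj k0 B' G := by
    refine prod B Pool.Agent.L7h29.NC.s_PRD0 B' ι R' π h4 G fun i => ?_
    have := (h5 i).1
    have := (h5 i).2
    exact simple B (fun S _ x => Pool.Agent.L7h44.NC.k0_id S x) Pool.Agent.L7h75.NC.s_FLD0 (R' i) G
  refine surf B q (fun H _ _ y => ?_) (fun H _ _ x hx => ?_) G hB
  · exact (Pool.Agent.L7h22.NC.s_NIL0 _ _ _ (hGRN S B' H q h1 h2).1 (hGRN S B' H q h1 h2).2).2 y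
  · refine ⟨1, one_pos, ?_⟩
    rw [one_smul]
    apply (Pool.Agent.L7h22.NC.s_NIL0 _ _ _ (hGRN S B' H q h1 h2).1 (hGRN S B' H q h1 h2).2).1
    rw [map_zero]
    exact hx

/-- `K₁` of Artinian rings finite over the centre -/
theorem artin1 (B : Blow k1) (hNIL : S_NIL1) (hGRN : S_GRN) (S : Type) [Ring S]
    (hA : ArtinFinite S) (hS : IsSemisimpleRing S ∨ ∃ p m : ℕ, p.Prime ∧ ((p ^ m : ℕ) : S) = 0)
    (G : Type) [Group G] : RatInj k1 S G := by
  have := hA.1
  have := hA.2
  obtain ⟨B', _, q, ι, _, _, R', _, π, h1, h2, h3, h4, h5⟩ := Pool.Agent.L7h47.NC.s_WED S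
  have hR : ∀ i, RatInj k1 (R' i) G := fun i => by
    have := (h5 i).1
    have := (h5 i).2
    exact simple B (fun S _ x => Pool.Agent.L7h44.NC.k1_id S x) Pool.Agent.L7h15.NC.s_FLD1 (R' i) G
  rcases hS with hs | ⟨p, m, hp, hpm⟩
  · refine prod B Pool.Agent.L7h46.NC.s_PRD1 S ι R' (fun i => (π i).comp q) ?_ G hR
    exact h4.comp ⟨h3 hs, h1⟩
  · have hB : RatInj k1 B' G := prod B Pool.Agent.L7h46.NC.s_PRD1 B' ι R' π h4 G hR
    have h6 : ∀ (H : Type) [Group H], ∃ p m : ℕ, p.Prime ∧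
        ((p ^ m : ℕ) : MonoidAlgebra S H) = 0 := by
      intro H _
      refine ⟨p, m, hp, ?_⟩
      rw [← map_natCast (MonoidAlgebra.singleOneRingHom : S →+* MonoidAlgebra S H), hpm, map_zero]
    refine surf B q (fun H _ _ y => ?_) (fun H _ _ x hx => ?_) G hB
    · exact (hNIL _ _ _ (hGRN S B' H q h1 h2).1 (hGRN S B' H q h1 h2).2 (h6 H)).1 y
    · exact (hNIL _ _ _ (hGRN S B' H q h1 h2).1 (hGRN S B' H q h1 h2).2 (h6 H)).2 x hx

/-- every finite subset is contained in a subring with the property `P` -/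
def Locally (P : (S : Type) → [Ring S] → Prop) (R : Type) [Ring R] : Prop :=
  ∀ s : Finset R, ∃ S : Subring R, (∀ a ∈ s, a ∈ S) ∧ P S

/-- the theorem for `K₀` -/
theorem main0 (hGRN : S_GRN) (R G : Type) [Ring R] [Group G] (h : Locally ArtinFinite R) :
    RatInj k0 R G := by
  obtain ⟨⟨B⟩, hC⟩ := Pool.Agent.L7h75.TW.s_K0F
  refine Pool.Agent.L7h53.NC.s_UNI k0 ⟨B⟩ hC R G fun s => ?_
  obtain ⟨S, h1, h2⟩ := h s
  exact ⟨S, h1, artin0 B hGRN S h2 G⟩

/-- the theorem for `K₁` -/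
theorem main1 (hNIL : S_NIL1) (hGRN : S_GRN) (R G : Type) [Ring R] [Group G]
    (h : Locally (fun S _ => ArtinFinite S ∧
      (IsSemisimpleRing S ∨ ∃ p m : ℕ, p.Prime ∧ ((p ^ m : ℕ) : S) = 0)) R) :
    RatInj k1 R G := by
  obtain ⟨⟨B⟩, hC⟩ := Pool.Agent.L7h76.TW.s_K1F
  refine Pool.Agent.L7h53.NC.s_UNI k1 ⟨B⟩ hC R G fun s => ?_
  obtain ⟨S, h1, h2, h3⟩ := h s
  exact ⟨S, h1, artin1 B hNIL hGRN S h2 h3 G⟩

end

end Pool.Agent.L7h59.NC
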