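import Pool.Agent.L7h59.NC.Def

/-!
# Project NC: functoriality of the colimits, parts RET and SUR
-/

set_option autoImplicit false

open Matrix

namespace Pool.Agent.L7h59.NC

open Pool.Agent.L7h59.TW (RFun Blow Cont k0 k1)
open Pool.Agent.Y69.FJ (FinSub)

noncomputable section

section api

variable {K : RFun} {R R' G : Type} [Ring R] [Ring R'] [Group G]

theorem mk_rel {z : FreeAbelianGroup (Sym K R G)} (hz : z ∈ Rel K R G) :
    (QuotientAddGroup.mk z : Colim K R G) = 0 :=
  (QuotientAddGroup.eq_zero_iff z).2 (AddSubgroup.subset_closure hz)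

theorem cl_add (H : FinSub G) (x y : K.F (MonoidAlgebra R H.1)) :
    cl K H (x + y) = cl K H x + cl K H y := by
  have h := mk_rel (K := K) (R := R) (G := G) (Or.inl ⟨H, x, y, rfl⟩)
  rw [QuotientAddGroup.mk_sub, QuotientAddGroup.mk_add, sub_eq_zero] at h
  exact h

theorem cl_map {H L : FinSub G} (g : G) (φ : H.1 →* L.1) (hφ : ∀ h : H.1, (φ h : G) = g * h * g⁻¹)
    (x : K.F (MonoidAlgebra R H.1)) :
    cl K L (K.map (MonoidAlgebra.mapDomainRingHom R φ) x) = cl K H x := by
  have h := mk_rel (K := K) (R := R) (G := G) (Or.inr ⟨H, L, g, φ, x, hφ, rfl⟩)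
  rw [QuotientAddGroup.mk_sub, sub_eq_zero] at h
  exact h

/-- `x ↦ [H, x]` -/
def clH (K : RFun) {R G : Type} [Ring R] [Group G] (H : FinSub G) :
    K.F (MonoidAlgebra R H.1) →+ Colim K R G :=
  AddMonoidHom.mk' (cl K H) (cl_add H)

theorem clH_apply (H : FinSub G) (x : K.F (MonoidAlgebra R H.1)) : clH K H x = cl K H x := rfl

theorem Colim.ind {P : Colim K R G → Prop} (h0 : ∀ (H : FinSub G) (x : K.F (MonoidAlgebra R H.1)),
    P (cl K H x)) (hz : P 0) (ha : ∀ a b, P a → P b → P (a + b)) (hn : ∀ a, P a → P (-a))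
    (w : Colim K R G) : P w := by
  obtain ⟨z, rfl⟩ := QuotientAddGroup.mk_surjective w
  induction z using FreeAbelianGroup.induction_on with
  | zero => exact hz
  | of s => exact h0 s.1 s.2
  | neg s hs => exact hn _ hs
  | add a b h1 h2 => exact ha _ _ h1 h2

/-- the map of the free abelian groups -/
def NT.pre (t : NT K R R') (G : Type) [Group G] :
    FreeAbelianGroup (Sym K R G) →+ FreeAbelianGroup (Sym K R' G) :=
  FreeAbelianGroup.lift fun s => sym K s.1 (t.f s.1.1 s.2)

theorem NT.pre_sym (t : NT K R R') (H : FinSub G) (x : K.F (MonoidAlgebra R H.1)) :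
    t.pre G (sym K H x) = sym K H (t.f H.1 x) :=
  FreeAbelianGroup.lift_apply_of _ _

theorem asmPre_sym (H : FinSub G) (x : K.F (MonoidAlgebra R H.1)) :
    asmPre K R G (sym K H x) = K.map (MonoidAlgebra.mapDomainRingHom R H.1.subtype) x :=
  FreeAbelianGroup.lift_apply_of _ _

theorem NT.pre_asm (t : NT K R R') (z : FreeAbelianGroup (Sym K R G)) :
    asmPre K R' G (t.pre G z) = t.f G (asmPre K R G z) := by
  have h : (asmPre K R' G).comp (t.pre G) = (t.f G).comp (asmPre K R G) := by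
    ext s
    show asmPre K R' G (t.pre G (sym K s.1 s.2)) = t.f G (asmPre K R G (sym K s.1 s.2))
    rw [t.pre_sym, asmPre_sym, asmPre_sym, t.nat]
  exact DFunLike.congr_fun h z

theorem NT.pre_le (t : NT K R R') : AddSubgroup.closure (Rel K R G) ≤
    (AddSubgroup.closure (Rel K R' G)).comap (t.pre G) := by
  rw [AddSubgroup.closure_le]
  rintro z (⟨H, x, y, rfl⟩ | ⟨H, L, g, φ, x, hφ, rfl⟩)
  · refine AddSubgroup.subset_closure (Or.inl ⟨H, t.f H.1 x, t.f H.1 y, ?_⟩)
    rw [map_sub, map_add, t.pre_sym, t.pre_sym, t.pre_sym, map_add]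
  · refine AddSubgroup.subset_closure (Or.inr ⟨H, L, g, φ, t.f H.1 x, hφ, ?_⟩)
    rw [map_sub, t.pre_sym, t.pre_sym, t.nat]

/-- the map of the colimits -/
def NT.co (t : NT K R R') (G : Type) [Group G] : Colim K R G →+ Colim K R' G :=
  QuotientAddGroup.map _ _ (t.pre G) t.pre_le

theorem NT.co_mk (t : NT K R R') (z : FreeAbelianGroup (Sym K R G)) :
    t.co G (QuotientAddGroup.mk z : Colim K R G) = (QuotientAddGroup.mk (t.pre G z) : Colim K R' G) :=
  rfl

theorem NT.co_cl (t : NT K R R') (H : FinSub G) (x : K.F (MonoidAlgebra R H.1)) :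
    t.co G (cl K H x) = cl K H (t.f H.1 x) := by
  show t.co G (QuotientAddGroup.mk (sym K H x) : Colim K R G) = _
  rw [t.co_mk, t.pre_sym]
  rfl

end api

theorem s_RET : S_RET := by
  intro K R _ ι _ R' _ t s N hN hst G _ hR z n hn h0
  have h1 : ∀ i, ∃ l : ℕ, 0 < l ∧ l • (t i).co G (QuotientAddGroup.mk z : Colim K R G) = 0 := by
    intro i
    have h2 : n • asmPre K (R' i) G ((t i).pre G z) = 0 := by
      rw [(t i).pre_asm, ← map_nsmul, h0, map_zero]
    exact hR i _ n hn h2
  choose l hl hl0 using h1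
  have key : ∀ w : Colim K R G, ∑ i, (s i).co G ((t i).co G w) = N • w := by
    intro w
    induction w using Colim.ind with
    | h0 H x =>
      have h3 : ∀ i, (s i).co G ((t i).co G (cl K H x)) = clH K H ((s i).f H.1 ((t i).f H.1 x)) := by
        intro i
        rw [(t i).co_cl, (s i).co_cl, clH_apply]
      rw [Finset.sum_congr rfl fun i _ => h3 i, ← map_sum, hst, map_nsmul, clH_apply]
    | hz => simp
    | ha a b h1 h2 => simp only [map_add, Finset.sum_add_distrib, h1, h2, nsmul_add]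
    | hn a h1 => simp only [map_neg, Finset.sum_neg_distrib, h1, smul_neg]
  have h5 : ∀ w : Colim K R G, (∀ i, l i • (t i).co G w = 0) → ((∏ i, l i) * N) • w = 0 := by
    intro w hw
    rw [mul_smul, ← key, Finset.smul_sum]
    refine Finset.sum_eq_zero fun i _ => ?_
    obtain ⟨c, hc⟩ := Finset.dvd_prod_of_mem l (Finset.mem_univ i)
    rw [← map_nsmul, hc, mul_comm, mul_smul, hw, smul_zero, map_zero]
  exact ⟨(∏ i, l i) * N, Nat.mul_pos (Finset.prod_pos fun i _ => hl i) hN, h5 _ hl0⟩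

end

end Pool.Agent.L7h59.NC
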