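import Pool.Agent.L7h59.TW.Def

/-!
# Project NC (MP_6374fb_al): noncommutative coefficient rings

`colim F(R[H]) → F(R[G])` over the finite subgroups `H` of an arbitrary group `G`, `F = K₀` or `K₁`, for
noncommutative coefficient rings `R`. Definitions and the statements of the parts.
-/

set_option autoImplicit false

open Matrix

namespace Pool.Agent.L7h59.NC

open Pool.Agent.L7h59.TW (RFun Blow Cont k0 k1)
open Pool.Agent.Y69.FJ (FinSub)

noncomputable section

section defs

variable (K : RFun) (R G : Type) [Ring R] [Group G]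

/-- The symbols `[H, x]`, `H` a finite subgroup of `G` and `x ∈ F(R[H])`. -/
def Sym : Type := Σ H : FinSub G, K.F (MonoidAlgebra R H.1)

variable {R G}

/-- The symbol `[H, x]`. -/
def sym (H : FinSub G) (x : K.F (MonoidAlgebra R H.1)) : FreeAbelianGroup (Sym K R G) :=
  FreeAbelianGroup.of ⟨H, x⟩

variable (R G)

/-- The relations of the colimit: `[H, x + y] = [H, x] + [H, y]`, and `[L, F(R[φ])(x)] = [H, x]` if
`φ : H → L` is given by the conjugation with an element of `G`. -/
def Rel : Set (FreeAbelianGroup (Sym K R G)) :=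
  {z | (∃ (H : FinSub G) (x y : K.F (MonoidAlgebra R H.1)),
      z = sym K H (x + y) - (sym K H x + sym K H y)) ∨
    ∃ (H L : FinSub G) (g : G) (φ : H.1 →* L.1) (x : K.F (MonoidAlgebra R H.1)),
      (∀ h : H.1, (φ h : G) = g * h * g⁻¹) ∧
        z = sym K L (K.map (MonoidAlgebra.mapDomainRingHom R φ) x) - sym K H x}

/-- `colim F(R[H])` over the finite subgroups `H` of `G`. -/
def Colim : Type := FreeAbelianGroup (Sym K R G) ⧸ AddSubgroup.closure (Rel K R G)

instance : AddCommGroup (Colim K R G) :=
  QuotientAddGroup.Quotient.addCommGroup (AddSubgroup.closure (Rel K R G))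

variable {R G}

/-- The class of `[H, x]` in the colimit. -/
def cl (H : FinSub G) (x : K.F (MonoidAlgebra R H.1)) : Colim K R G :=
  QuotientAddGroup.mk (sym K H x)

variable (R G)

/-- The homomorphism with `[H, x] ↦ F(R[i])(x)`, `i : H → G` the inclusion. -/
def asmPre : FreeAbelianGroup (Sym K R G) →+ K.F (MonoidAlgebra R G) :=
  FreeAbelianGroup.lift fun s => K.map (MonoidAlgebra.mapDomainRingHom R s.1.1.subtype) s.2

/-- `colim F(R[H]) → F(R[G])` is injective up to torsion. -/
def RatInj : Prop :=
  ∀ (z : FreeAbelianGroup (Sym K R G)) (n : ℕ), 0 < n → n • asmPre K R G z = 0 →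
    ∃ l : ℕ, 0 < l ∧ l • (QuotientAddGroup.mk z : Colim K R G) = 0

end defs

/-- A natural transformation `F(R[-]) → F(R'[-])` of functors on groups. -/
structure NT (K : RFun) (R R' : Type) [Ring R] [Ring R'] where
  f : ∀ (H : Type) [Group H], K.F (MonoidAlgebra R H) →+ K.F (MonoidAlgebra R' H)
  nat : ∀ (H L : Type) [Group H] [Group L] (φ : H →* L) (x : K.F (MonoidAlgebra R H)),
    f L (K.map (MonoidAlgebra.mapDomainRingHom R φ) x) =
      K.map (MonoidAlgebra.mapDomainRingHom R' φ) (f H x)

/-! ### The parts -/

/-- [RET] Finitely many natural transformations `t i : R → R' i`, `s i : R' i → R` with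
`∑ i, s i ∘ t i = N`, `N > 0`.
Proof: `t i` induces `Colim R → Colim (R' i)` (the relations are preserved, by `nat`), compatible with
`asmPre`; so if `n • asmPre z = 0` then `t i z` is torsion, so is `s i (t i z)`, and their sum is `N z`. -/
def S_RET : Prop := ∀ (K : RFun) (R : Type) [Ring R] (ι : Type) [Fintype ι] (R' : ι → Type)
  [∀ i, Ring (R' i)] (t : ∀ i, NT K R (R' i)) (s : ∀ i, NT K (R' i) R) (N : ℕ), 0 < N →
  (∀ (H : Type) [Group H] (x : K.F (MonoidAlgebra R H)), ∑ i, (s i).f H ((t i).f H x) = N • x) →
  ∀ (G : Type) [Group G], (∀ i, RatInj K (R' i) G) → RatInj K R G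

/-- [SUR] A natural transformation which is surjective with torsion kernel for all groups `H`.
Proof: let `T` be the torsion subgroup of `Colim R`. Define `Colim R' → Colim R ⧸ T` by
`[H, y] ↦ [H, x]`, `x` any preimage of `y` (well defined: two preimages differ by a torsion element; the
relations hold by `nat`). The composite `Colim R → Colim R' → Colim R ⧸ T` is the projection, so `z` is
torsion if its image in `Colim R'` is torsion. -/
def S_SUR : Prop := ∀ (K : RFun) (R R' : Type) [Ring R] [Ring R'] (t : NT K R R'),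
  (∀ (H : Type) [Group H] (y : K.F (MonoidAlgebra R' H)), ∃ x, t.f H x = y) →
  (∀ (H : Type) [Group H] (x : K.F (MonoidAlgebra R H)), t.f H x = 0 → ∃ m : ℕ, 0 < m ∧ m • x = 0) →
  ∀ (G : Type) [Group G], RatInj K R' G → RatInj K R G

/-- [FLD0] From `Pool.Agent.Results.MP_6374fb_al.SemilocalK0.result`, with `R = k` (same colimit, other names;
compare `Pool.Agent.L7h75.TW.Tr0`). -/
def S_FLD0 : Prop := ∀ (k G : Type) [Field k] [Group G], RatInj k0 k G

/-- [FLD1] From `Pool.Agent.Results.MP_6374fb_al.ColimFieldInjective.result` and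
`Pool.Agent.Results.MP_490288_al.ColimPositiveCharacteristic.result` (`CharP.exists`; compare
`Pool.Agent.L7h76.TW.Tr1`). -/
def S_FLD1 : Prop := ∀ (k G : Type) [Field k] [Group G], RatInj k1 k G

/-- [DOM] If `θ : R → M_X(R')` and `g : R' → R` are ring homomorphisms and the composite `R → M_X(R)` is
conjugate to the diagonal embedding, then there are natural transformations `t`, `s` with
`s ∘ t = |X|`. Proof: `t = blow (R[H] → M_X(R'[H]), a h ↦ θ(a) h)` (natural by `blow_map`, `map_blow`), `s = map`;
the composite is `blow` of `a h ↦ u (a h) v`, which is `|X|` by `blow_conj`, `blow_sum` (`ρ = id`),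
`blow_unique`. Compare `Pool.Agent.L7h59.TW.Fin`. -/
def S_DOM : Prop := ∀ (K : RFun), Nonempty (Blow K) → ∀ (R R' X : Type) [Ring R] [Ring R'] [Fintype X]
  [DecidableEq X] (θ : R →+* Matrix X X R') (g : R' →+* R) (u v : Matrix X X R),
  u * v = 1 → v * u = 1 → (∀ r : R, (θ r).map g = u * Matrix.scalar X r * v) →
  ∃ (t : NT K R R') (s : NT K R' R),
    ∀ (H : Type) [Group H] (x : K.F (MonoidAlgebra R H)), s.f H (t.f H x) = Fintype.card X • x

/-- [CSA] `R` a simple ring, finite over its centre `Z` (a field): the regular representation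
`θ : R → End_Z(R) = M_X(Z)` becomes conjugate to the diagonal embedding over `R`.
Proof: let `e_j` be a basis, `r e_j = ∑ i, e_i θ(r)_ij`. The matrix `w = (e_j e_i)_ij` in `M_X(R)` satisfies
`r w = w θ(r)`. It is invertible: if `y_i` are linearly independent over `Z` and `∑ a_i x y_i = 0` for all
`x ∈ R` then all `a_i = 0` (shortest relation, `R a_i R = R`, commutator with `r`); so `v ↦ v w` is injective
on row vectors, hence bijective (finite dimension over `Z`). -/
def S_CSA : Prop := ∀ (R : Type) [Ring R] [IsSimpleRing R] [Module.Finite (Subring.center R) R],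
  ∃ (X : Type) (_ : Fintype X) (_ : DecidableEq X) (_ : Nonempty X)
    (θ : R →+* Matrix X X (Subring.center R)) (u v : Matrix X X R),
    u * v = 1 ∧ v * u = 1 ∧
      ∀ r : R, (θ r).map (Subring.center R).subtype = u * Matrix.scalar X r * v

/-- [PRD0] Products, `K₀`: if `π i : R → R' i` are jointly bijective, there are natural
transformations `s i` from `R' i` to `R` with `∑ i, s i (K₀(π i) x) = x`.
Proof: `R[H] → ∏ R'_i[H]` is bijective as well; `s i` maps the class of an idempotent matrix `e` over
`R'_i[H]` to the class of the matrix over `R[H]` with the components `e` at `i` and `0` elsewhere. An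
idempotent matrix over `R[H]` is the sum of its components, which are orthogonal idempotents. -/
def S_PRD (K : RFun) : Prop := ∀ (R ι : Type) [Ring R] [Fintype ι] [DecidableEq ι] (R' : ι → Type)
  [∀ i, Ring (R' i)] (π : ∀ i, R →+* R' i), Function.Bijective (fun (r : R) (i : ι) => π i r) →
  ∃ s : ∀ i, NT K (R' i) R, ∀ (H : Type) [Group H] (x : K.F (MonoidAlgebra R H)),
    ∑ i, (s i).f H (K.map (MonoidAlgebra.mapRingHom H (π i)) x) = x

/-- [PRD0] see `S_PRD`. -/
def S_PRD0 : Prop := S_PRD k0

/-- [PRD1] the same for `K₁`: `s i` maps the class of an invertible matrix `M` over `R'_i[H]` to the class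
of the matrix with the components `M` at `i` and `1` elsewhere. -/
def S_PRD1 : Prop := S_PRD k1

/-- [NIL0] `K₀(B) → K₀(C)` is bijective if `B → C` is surjective with nilpotent kernel (lifting of
idempotent matrices and of their equivalences; for commutative coefficients this is
`Pool.Agent.Y490.SL.nil`, see its proof). -/
def S_NIL0 : Prop := ∀ (B C : Type) [Ring B] [Ring C] (π : B →+* C), Function.Surjective π →
  (∃ N : ℕ, (RingHom.ker π) ^ N = ⊥) → Function.Bijective (k0.map π)

/-- [NIL1] `K₁(B) → K₁(C)` is surjective with torsion kernel, if `B → C` is surjective with nilpotent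
kernel `I` and `p ^ m = 0` in `B`. Proof: invertible matrices lift. Let `T` be the subgroup of `K₁(B)`
generated by the classes of the matrices in `1 + M(I)`; they have finite order because
`(1 + x) ^ (p ^ k) = 1` for large `k`. Lifting defines a homomorphism `K₁(C) → K₁(B) ⧸ T` whose composite
with `K₁(B) → K₁(C)` is the projection. -/
def S_NIL1 : Prop := ∀ (B C : Type) [Ring B] [Ring C] (π : B →+* C), Function.Surjective π →
  (∃ N : ℕ, (RingHom.ker π) ^ N = ⊥) → (∃ p m : ℕ, p.Prime ∧ ((p ^ m : ℕ) : B) = 0) →
  (∀ y, ∃ x, k1.map π x = y) ∧ ∀ x, k1.map π x = 0 → ∃ m : ℕ, 0 < m ∧ m • x = 0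

/-- [GRN] If `π : R → R'` is surjective with nilpotent kernel then so is `R[H] → R'[H]`. -/
def S_GRN : Prop := ∀ (R R' H : Type) [Ring R] [Ring R'] [Group H] (π : R →+* R'),
  Function.Surjective π → (∃ N : ℕ, (RingHom.ker π) ^ N = ⊥) →
  Function.Surjective (MonoidAlgebra.mapRingHom H π) ∧
    ∃ N : ℕ, (RingHom.ker (MonoidAlgebra.mapRingHom H π)) ^ N = ⊥

/-- [UNI] Directed unions. Let `n • asmPre z = 0`. By `Cont` finitely many elements of `R` are needed to
write `z` (a finite number of symbols `[H, x]`, `x ∈ F(R[H])` comes from `F(S[H])`) and the relation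
`n • asmPre z = 0`; take the subring `S` of the hypothesis which contains them. Compare
`Pool.Agent.L7h70.TW.Dir`. -/
def S_UNI : Prop := ∀ K : RFun, Nonempty (Blow K) → Cont K → ∀ (R G : Type) [Ring R] [Group G],
  (∀ s : Finset R, ∃ S : Subring R, (∀ a ∈ s, a ∈ S) ∧ RatInj K S G) → RatInj K R G

/-- [WED] The structure of an Artinian ring which is finite over its centre. Proof: `J` the Jacobson radical
is nilpotent, `S ⧸ J` is semisimple, so (Wedderburn-Artin) a finite product of matrix rings over
division rings, which are simple; they are quotients of `S`, so finite over the image of the centre of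
`S`, which is contained in their centre. -/
def S_WED : Prop := ∀ (S : Type) [Ring S] [IsArtinianRing S] [Module.Finite (Subring.center S) S],
  ∃ (B : Type) (_ : Ring B) (q : S →+* B) (ι : Type) (_ : Fintype ι) (_ : DecidableEq ι)
    (R' : ι → Type) (_ : ∀ i, Ring (R' i)) (π : ∀ i, B →+* R' i),
    Function.Surjective q ∧ (∃ N : ℕ, (RingHom.ker q) ^ N = ⊥) ∧
    (IsSemisimpleRing S → Function.Injective q) ∧
    Function.Bijective (fun (b : B) (i : ι) => π i b) ∧
    ∀ i, IsSimpleRing (R' i) ∧ Module.Finite (Subring.center (R' i)) (R' i)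

end

end Pool.Agent.L7h59.NC
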