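import Pool.Agent.L7h59.NC.Base
import Pool.Agent.L7h59.TW.All

/-!
# Project NC: the definitions used in the final statement

They are the definitions of `Pool.Agent.L7h59.NC.Def` in a shorter form.
-/

set_option autoImplicit false

open Matrix

namespace Pool.Agent.L7h59.NC

open Pool.Agent.L7h59.TW (RFun Blow Cont k0 k1)

noncomputable section

section colim

variable (F : RFun) (R : Type) [Ring R]

/-- The group `F(R[H])`. -/
def KG (H : Type) [Group H] : Type := F.F (MonoidAlgebra R H)

instance instKG (H : Type) [Group H] : AddCommGroup (KG F R H) := F.grp (MonoidAlgebra R H)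

/-- The homomorphism `F(R[φ]) : F(R[H]) → F(R[L])` of a group homomorphism `φ : H → L`. -/
def KG.map {H L : Type} [Group H] [Group L] (φ : H →* L) : KG F R H →+ KG F R L :=
  F.map (MonoidAlgebra.mapDomainRingHom R φ)

/-- The finite subgroups of `G`. -/
def FS (G : Type) [Group G] : Type := {H : Subgroup G // Finite H}

variable (G : Type) [Group G]

/-- The symbols `[H, x]`, `H` a finite subgroup of `G` and `x ∈ F(R[H])`. -/
def Symb : Type := Σ H : FS G, KG F R H.1

variable {G} in
/-- The symbol `[H, x]`. -/
def symb (H : FS G) (x : KG F R H.1) : FreeAbelianGroup (Symb F R G) :=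
  FreeAbelianGroup.of ⟨H, x⟩

/-- The relations `[H, x + y] = [H, x] + [H, y]`. -/
def AddRels : Set (FreeAbelianGroup (Symb F R G)) :=
  {z | ∃ (H : FS G) (x y : KG F R H.1), z = symb F R H (x + y) - (symb F R H x + symb F R H y)}

/-- The relations `[L, F(R[φ])(x)] = [H, x]`, `φ : H → L` given by the conjugation with an element
of `G`. -/
def ConjRels : Set (FreeAbelianGroup (Symb F R G)) :=
  {z | ∃ (H L : FS G) (g : G) (φ : H.1 →* L.1) (x : KG F R H.1),
      (∀ h : H.1, (φ h : G) = g * h * g⁻¹) ∧ z = symb F R L (KG.map F R φ x) - symb F R H x}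

/-- `colim F(R[H])` over the finite subgroups `H` of `G`. -/
def ColimF : Type :=
  FreeAbelianGroup (Symb F R G) ⧸ AddSubgroup.closure (AddRels F R G ∪ ConjRels F R G)

instance instColimF : AddCommGroup (ColimF F R G) :=
  QuotientAddGroup.Quotient.addCommGroup (AddSubgroup.closure (AddRels F R G ∪ ConjRels F R G))

variable {G} in
/-- The class of `[H, x]` in the colimit. -/
def ColimF.cl (H : FS G) (x : KG F R H.1) : ColimF F R G := QuotientAddGroup.mk (symb F R H x)

/-- `colim F(R[H]) → F(R[G])`, `H` ranging over the finite subgroups of `G`, is injective up to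
torsion: there is a homomorphism `A` with `A [H, x] = F(R[i])(x)`, `i : H → G` the inclusion, and if
`A z` has finite order then so has `z`. -/
def InjectiveUpToTorsion : Prop :=
  ∃ A : ColimF F R G →+ KG F R G, (∀ (H : FS G) (x : KG F R H.1),
      A (ColimF.cl F R H x) = KG.map F R H.1.subtype x) ∧
    ∀ z, (∃ n : ℕ, 0 < n ∧ n • A z = 0) → ∃ l : ℕ, 0 < l ∧ l • z = 0

end colim

section asm

variable {K : RFun} (B : Blow K) {R G : Type} [Ring R] [Group G]

include B in
theorem map_compat (g : G) {H L : Subgroup G} (φ : H →* L) (hφ : ∀ h : H, (φ h : G) = g * h * g⁻¹)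
    (x : K.F (MonoidAlgebra R H)) :
    K.map (MonoidAlgebra.mapDomainRingHom R L.subtype)
      (K.map (MonoidAlgebra.mapDomainRingHom R φ) x) =
      K.map (MonoidAlgebra.mapDomainRingHom R H.subtype) x := by
  let u : MonoidAlgebra R G := MonoidAlgebra.single g 1
  let v : MonoidAlgebra R G := MonoidAlgebra.single g⁻¹ 1
  have h1 : u * v = 1 := by
    show MonoidAlgebra.single g 1 * MonoidAlgebra.single g⁻¹ 1 = _
    rw [MonoidAlgebra.single_mul_single, mul_inv_cancel, mul_one]
    rfl
  have h2 : v * u = 1 := by
    show MonoidAlgebra.single g⁻¹ 1 * MonoidAlgebra.single g 1 = _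
    rw [MonoidAlgebra.single_mul_single, inv_mul_cancel, mul_one]
    rfl
  let ψ : MonoidAlgebra R G →+* MonoidAlgebra R G :=
    { toFun := fun b => u * b * v
      map_one' := by rw [mul_one, h1]
      map_mul' := fun a b => by
        rw [show u * (a * b) * v = u * a * (1 : MonoidAlgebra R G) * b * v by
          rw [mul_one, mul_assoc u a b], ← h2]
        simp only [mul_assoc]
      map_zero' := by rw [mul_zero, zero_mul]
      map_add' := fun a b => by rw [mul_add, add_mul] }
  have e : (MonoidAlgebra.mapDomainRingHom R L.subtype).comp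
      (MonoidAlgebra.mapDomainRingHom R φ) =
      ψ.comp (MonoidAlgebra.mapDomainRingHom R H.subtype) := by
    apply MonoidAlgebra.ringHom_ext
    · intro r
      have hl : ∀ b, ψ b = u * b * v := fun _ => rfl
      rw [RingHom.comp_apply, RingHom.comp_apply, hl]
      simp only [MonoidAlgebra.mapDomainRingHom_apply, MonoidAlgebra.mapDomain_single]
      simp only [u, v]
      rw [MonoidAlgebra.single_mul_single, MonoidAlgebra.single_mul_single, one_mul, mul_one,
        map_one, map_one, map_one, mul_one, mul_inv_cancel]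
    · intro a
      have hl : ∀ b, ψ b = u * b * v := fun _ => rfl
      rw [RingHom.comp_apply, RingHom.comp_apply, hl]
      simp only [MonoidAlgebra.mapDomainRingHom_apply, MonoidAlgebra.mapDomain_single]
      simp only [u, v]
      rw [MonoidAlgebra.single_mul_single, MonoidAlgebra.single_mul_single, one_mul, mul_one]
      congr 1
      exact hφ a
  rw [B.map_map, e, ← B.map_map, Pool.Agent.L7h59.TW.map_conj B ψ u v h1 h2 (fun _ => rfl),
    B.map_map]
  congr 1

/-- The assembly map. -/
def asm (B : Blow K) (R G : Type) [Ring R] [Group G] : Colim K R G →+ K.F (MonoidAlgebra R G) :=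
  QuotientAddGroup.lift (AddSubgroup.closure (Rel K R G)) (asmPre K R G) (by
    rw [AddSubgroup.closure_le]
    rintro z (⟨H, x, y, rfl⟩ | ⟨H, L, g, φ, x, hφ, rfl⟩)
    · show asmPre K R G _ = 0
      rw [map_sub, map_add, asmPre_sym, asmPre_sym, asmPre_sym, map_add, sub_self]
    · show asmPre K R G _ = 0
      rw [map_sub, asmPre_sym, asmPre_sym, sub_eq_zero]
      exact map_compat B g φ hφ x)

theorem injectiveUpToTorsion_of (B : Blow K) {R G : Type} [Ring R] [Group G] (h : RatInj K R G) :
    InjectiveUpToTorsion K R G := by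
  refine ⟨asm B R G, fun H x => asmPre_sym (K := K) (R := R) H x, ?_⟩
  rintro z ⟨n, hn, hz⟩
  obtain ⟨w, rfl⟩ := QuotientAddGroup.mk'_surjective _ z
  exact h w n hn hz

end asm

end

end Pool.Agent.L7h59.NC
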