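import Pool.Agent.L7h59.NC.Asm
import Pool.Agent.L7h59.NC.Short

/-!
# Project NC: the coefficient rings of the final statement
-/

set_option autoImplicit false

open Matrix

namespace Pool.Agent.L7h59.NC

open Pool.Agent.L7h59.TW (RFun Blow Cont k0 k1)

noncomputable section

/-- `C` has finitely many maximal ideals. -/
def Semilocal (C : Type) [CommRing C] : Prop := Finite (MaximalSpectrum C)

/-- `C` is the directed union of finitely generated subrings of Krull dimension at most one. -/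
def LocallyDimOne (C : Type) [CommRing C] : Prop :=
  ∀ s : Finset C, ∃ t : Finset C, s ⊆ t ∧ Ring.KrullDimLE 1 (Algebra.adjoin ℤ (t : Set C))

/-- `S` is an Azumaya algebra over a commutative ring `C ≠ 0` with the property `P`, and free as a
`C`-module. -/
def AzumayaOver (P : (C : Type) → [CommRing C] → Prop) (S : Type) [Ring S] : Prop :=
  ∃ (C : Type) (_ : CommRing C) (_ : Algebra C S), Nontrivial C ∧ Module.Free C S ∧ IsAzumaya C S ∧
    P C

/-- The power of some prime number is zero in `S`. -/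
def PrimePower (S : Type) [Ring S] : Prop := ∃ p m : ℕ, p.Prime ∧ ((p ^ m : ℕ) : S) = 0

/-- The subrings allowed for `K₀`. -/
def Good0 (S : Type) [Ring S] : Prop := ArtinFinite S ∨ AzumayaOver (fun C _ => Semilocal C) S

/-- The subrings allowed for `K₁`. -/
def Good1 (S : Type) [Ring S] : Prop :=
  (ArtinFinite S ∧ (IsSemisimpleRing S ∨ PrimePower S)) ∨
    AzumayaOver (fun C _ => Semilocal C ∨ LocallyDimOne C) S

/-- Azumaya algebras -/
theorem azu (hAZU : S_AZU) {K : RFun} (B : Blow K)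
    (hid : ∀ (S : Type) [Ring S] (x : K.F S), K.map (RingHom.id S) x = x) (G : Type) [Group G]
    {P : (C : Type) → [CommRing C] → Prop} (hP : ∀ (C : Type) [CommRing C], P C → RatInj K C G)
    (S : Type) [Ring S] (hS : AzumayaOver P S) : RatInj K S G := by
  obtain ⟨C, _, _, _, _, _, hC⟩ := hS
  obtain ⟨X, _, _, _, θ, u, v, h1, h2, h3⟩ := hAZU C S
  exact dominated B hid θ (algebraMap C S) u v h1 h2 h3 G (hP C hC)

theorem final0 (hGRN : S_GRN) (hAZU : S_AZU) (hCOM : S_COM0) (R G : Type) [Ring R] [Group G]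
    (h : Locally (fun S _ => Good0 S) R) : InjectiveUpToTorsion k0 R G := by
  obtain ⟨⟨B⟩, hC⟩ := Pool.Agent.L7h75.TW.s_K0F
  refine injectiveUpToTorsion_of B (Pool.Agent.L7h53.NC.s_UNI k0 ⟨B⟩ hC R G fun s => ?_)
  obtain ⟨S, h1, h2⟩ := h s
  refine ⟨S, h1, ?_⟩
  rcases h2 with h2 | h2
  · exact artin0 B hGRN S h2 G
  · exact azu hAZU B (fun S _ x => Pool.Agent.L7h44.NC.k0_id S x) G
      (fun C _ hC => hCOM C G hC) S h2

theorem final1 (hNIL : S_NIL1) (hGRN : S_GRN) (hAZU : S_AZU) (hCOM : S_COM1) (R G : Type) [Ring R]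
    [Group G] (h : Locally (fun S _ => Good1 S) R) : InjectiveUpToTorsion k1 R G := by
  obtain ⟨⟨B⟩, hC⟩ := Pool.Agent.L7h76.TW.s_K1F
  refine injectiveUpToTorsion_of B (Pool.Agent.L7h53.NC.s_UNI k1 ⟨B⟩ hC R G fun s => ?_)
  obtain ⟨S, h1, h2⟩ := h s
  refine ⟨S, h1, ?_⟩
  rcases h2 with ⟨h2, h3⟩ | h2
  · exact artin1 B hNIL hGRN S h2 h3 G
  · exact azu hAZU B (fun S _ x => Pool.Agent.L7h44.NC.k1_id S x) G
      (fun C _ hC => hCOM C G hC) S h2

/-- locally finite-dimensional algebras -/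
theorem loc_fd {k R : Type} [Field k] [Ring R] [Algebra k R]
    (h : ∀ s : Finset R, ∃ S : Subalgebra k R, (∀ a ∈ s, a ∈ S) ∧ FiniteDimensional k S) :
    Locally (fun S _ => Good0 S) R := fun s => by
  obtain ⟨S, h1, h2⟩ := h s
  exact ⟨S.toSubring, h1, Or.inl (subring_fd k R S h2)⟩

theorem loc_fd1 {k R : Type} [Field k] [Ring R] [Algebra k R] (p : ℕ) (hp : p.Prime)
    (hk : (p : k) = 0)
    (h : ∀ s : Finset R, ∃ S : Subalgebra k R, (∀ a ∈ s, a ∈ S) ∧ FiniteDimensional k S) :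
    Locally (fun S _ => Good1 S) R := fun s => by
  obtain ⟨S, h1, h2⟩ := h s
  refine ⟨S.toSubring, h1, Or.inl ⟨subring_fd k R S h2, Or.inr ⟨p, 1, hp, ?_⟩⟩⟩
  apply Subtype.ext
  show ((p ^ 1 : ℕ) : R) = 0
  rw [pow_one, ← map_natCast (algebraMap k R), hk, map_zero]

end

end Pool.Agent.L7h59.NC
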