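import Pool.Agent.L7h59.NC.Fin
import Pool.Agent.L7h25.NC.Nil1
import Pool.Agent.L7h25.NC.Grn

set_option autoImplicit false

namespace Pool.Agent.L7h59.NC

open Pool.Agent.L7h59.TW (RFun Blow Cont k0 k1)

theorem res (hAZU : S_AZU) (hCOM0 : S_COM0) (hCOM1 : S_COM1) (R G : Type) [Ring R] [Group G] :
    (Locally (fun S _ => Good0 S) R → InjectiveUpToTorsion k0 R G) ∧
    (Locally (fun S _ => Good1 S) R → InjectiveUpToTorsion k1 R G) ∧
    ∀ (k : Type) [Field k] [Algebra k R],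
      (∀ s : Finset R, ∃ S : Subalgebra k R, (∀ a ∈ s, a ∈ S) ∧ FiniteDimensional k S) →
        InjectiveUpToTorsion k0 R G ∧
          (∀ p : ℕ, p.Prime → (p : k) = 0 → InjectiveUpToTorsion k1 R G) :=
  ⟨final0 Pool.Agent.L7h25.NC.s_GRN hAZU hCOM0 R G,
    final1 Pool.Agent.L7h25.NC.s_NIL1 Pool.Agent.L7h25.NC.s_GRN hAZU hCOM1 R G,
    fun _ _ _ h => ⟨final0 Pool.Agent.L7h25.NC.s_GRN hAZU hCOM0 R G (loc_fd h),
      fun p hp hk => final1 Pool.Agent.L7h25.NC.s_NIL1 Pool.Agent.L7h25.NC.s_GRN hAZU hCOM1 R G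
        (loc_fd1 p hp hk h)⟩⟩

end Pool.Agent.L7h59.NC
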